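import Mathlib

namespace Pool.Agent.Results.MP_77df55_co.Sylvester

/-- A bipartite graph between `A` and `B`, given as a relation, is `k`-regular. -/
def Regular {A B : Type} (k : ℕ) (G : A → B → Prop) : Prop :=
  (∀ a, {b | G a b}.ncard = k) ∧ ∀ b, {a | G a b}.ncard = k

/-- The perfect matching `a ↦ M a` is acceptable for `H`. -/
def Acceptable {A B : Type} (M : A ≃ B) (H : A → B → Prop) : Prop :=
  ¬ ∃ a a', a ≠ a' ∧ H a (M a') ∧ H a' (M a)

def nbL : List (List (Fin 16)) :=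
  [[1, 6, 11], [0, 2, 3], [1, 4, 5], [1, 4, 5], [2, 3, 5], [2, 3, 4],
   [0, 7, 8], [6, 9, 10], [6, 9, 10], [7, 8, 10], [7, 8, 9],
   [0, 12, 13], [11, 14, 15], [11, 14, 15], [12, 13, 15], [12, 13, 14]]

def nb (a : Fin 16) : Finset (Fin 16) := (nbL.getD a.val []).toFinset

def br (r : Fin 16) : Finset (Fin 16) := Finset.univ.filter (fun x => r ≤ x ∧ x.val < r.val + 5)

lemma nb_card : ∀ a, (nb a).card = 3 := by decide
lemma nb_symm : ∀ a b, b ∈ nb a → a ∈ nb b := by decide
lemma nb_ne : ∀ a, a ∉ nb a := by decide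
lemma br_ok : ∀ r ∈ nb 0, (br r).card = 5 ∧ 0 ∉ br r ∧ r ∈ br r ∧
    ∀ x ∈ br r, ∀ y ∈ nb x, y ∈ br r ∨ (x = r ∧ y = 0) := by decide +kernel

lemma core (f : Fin 16 → Fin 16) (hf : Function.Injective f) (h : ∀ a, f a ∈ nb a) :
    f (f 0) = 0 := by
  by_contra hne
  obtain ⟨b1, b2, b3, b4⟩ := br_ok (f 0) (h 0)
  have := Finset.card_le_card_of_injOn (s := insert 0 (br (f 0))) (t := br (f 0)) f (by
    intro x hx
    rcases Finset.mem_insert.1 (Finset.mem_coe.1 hx) with rfl | hx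
    · exact b3
    · rcases b4 x hx (f x) (h x) with h1 | ⟨h1, h2⟩
      · exact h1
      · rw [h1] at h2
        exact absurd h2 hne) hf.injOn
  rw [Finset.card_insert_of_notMem b2] at this
  omega

theorem result : ∀ N : ℕ, ∃ (A B : Type) (_ : Fintype A) (_ : Fintype B)
    (G H : A → B → Prop), N ≤ Fintype.card A ∧ Fintype.card A = Fintype.card B ∧
    Regular 3 G ∧ Regular 1 H ∧ (∀ a b, ¬ (G a b ∧ H a b)) ∧
    ∀ M : A ≃ B, (∀ a, G a (M a)) → ¬ Acceptable M H := by
  intro N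
  refine ⟨Fin (N + 1) × Fin 16, Fin (N + 1) × Fin 16, inferInstance, inferInstance,
    fun a b => a.1 = b.1 ∧ b.2 ∈ nb a.2, fun a b => a = b, by simp; omega, rfl,
    ⟨?_, ?_⟩, ⟨by simp, by simp⟩, ?_, ?_⟩
  · intro a
    have : {b : Fin (N + 1) × Fin 16 | a.1 = b.1 ∧ b.2 ∈ nb a.2} =
        (({a.1} ×ˢ nb a.2 : Finset _) : Set _) := by
      ext b
      simp only [Set.mem_ofPred_eq, Finset.coe_product, Finset.coe_singleton, Set.mem_prod,
        Set.mem_singleton_iff, Finset.mem_coe]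
      exact and_congr_left fun _ => eq_comm
    rw [this, Set.ncard_coe_finset]
    simp [nb_card]
  · intro b
    have : {a : Fin (N + 1) × Fin 16 | a.1 = b.1 ∧ b.2 ∈ nb a.2} =
        (({b.1} ×ˢ nb b.2 : Finset _) : Set _) := by
      ext a
      simp only [Set.mem_ofPred_eq, Finset.coe_product, Finset.coe_singleton, Set.mem_prod,
        Set.mem_singleton_iff, Finset.mem_coe]
      exact and_congr_right fun _ => ⟨nb_symm _ _, nb_symm _ _⟩
    rw [this, Set.ncard_coe_finset]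
    simp [nb_card]
  · rintro a b ⟨h, rfl⟩
    exact nb_ne _ h.2
  · intro M hM hA
    have e : ∀ x, M (0, x) = (0, (M (0, x)).2) := fun x => Prod.ext (hM (0, x)).1.symm rfl
    have := core (fun x => (M (0, x)).2) (fun x y h => by
      have : M (0, x) = M (0, y) := by rw [e x, e y]; exact congrArg _ h
      exact (Prod.ext_iff.1 (M.injective this)).2) (fun x => (hM (0, x)).2)
    refine hA ⟨(0, 0), M (0, 0), ?_, ?_, rfl⟩
    · intro h
      have h2 := (hM (0, 0)).2
      rw [← h] at h2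
      exact nb_ne _ h2
    · rw [e 0, e (M (0, 0)).2]
      exact Prod.ext rfl this.symm

end Pool.Agent.Results.MP_77df55_co.Sylvester
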